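import Pool.Agent.Helper52.GPM.S

namespace Pool.Agent.Helper8.GPM

open Relation Classical Pool.Agent.Helper18.GP Pool.Agent.Helper52.GPM

theorem mod_mTransfer (h : mExit) : mTransfer := by
  intro N V F F' hFB a ha b hb hab hS hT v hv y hy hvy
  have hba : b ≠ a := fun e => hab e.symm
  have haS : a ∈ Arc V a b := left_mem_Arc ha
  have hbS : b ∈ Arc V a b := right_mem_Arc hb
  have haT : a ∈ Arc V b a := right_mem_Arc ha
  have hbT : b ∈ Arc V b a := left_mem_Arc hb
  -- the invariant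
  obtain ⟨Q, hQ⟩ : ∃ Q : Fin N → Prop, ∀ z, Q z ↔ ((z ∈ Arc V a b ∧ EqvGen F' v z) ∨
    (z ∈ Arc V b a ∧ ((EqvGen F' v a ∧ EqvGen (Fr F (Arc V b a)) a z) ∨
      (EqvGen F' v b ∧ EqvGen (Fr F (Arc V b a)) b z)))) := ⟨_, fun z => Iff.rfl⟩
  have hfin : ∀ x, (x = a ∨ x = b) → ((EqvGen F' v a ∧ EqvGen (Fr F (Arc V b a)) a x) ∨
      (EqvGen F' v b ∧ EqvGen (Fr F (Arc V b a)) b x)) → EqvGen F' v x := by
    rintro x (rfl | rfl) (⟨h1, h2⟩ | ⟨h1, h2⟩)
    · exact h1
    · exact h1.trans _ _ _ ((hT (h2.symm _ _)).symm _ _)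
    · exact h1.trans _ _ _ (hT h2)
    · exact h1
  have key : ∀ x y, (F x y ∨ F y x) → Q x → Q y := by
    intro x y hR hx
    have hBd : Bd V x y ∨ Bd V y x := hR.imp (hFB x y) (hFB y x)
    have hxV : x ∈ V := by
      rcases hBd with h | h
      · exact h.1
      · exact h.2.1
    have hyV : y ∈ V := by
      rcases hBd with h | h
      · exact h.2.1
      · exact h.1
    have hstepS : x ∈ Arc V a b → y ∈ Arc V a b → EqvGen F' x y := by
      intro h1 h2
      rcases hR with h | h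
      · exact hS x y ⟨h, h1, h2⟩
      · exact (hS y x ⟨h, h2, h1⟩).symm _ _
    have hstepT : x ∈ Arc V b a → y ∈ Arc V b a → EqvGen (Fr F (Arc V b a)) x y := by
      intro h1 h2
      rcases hR with h | h
      · exact EqvGen.rel _ _ ⟨h, h1, h2⟩
      · exact (EqvGen.rel _ _ ⟨h, h2, h1⟩ : EqvGen (Fr F (Arc V b a)) y x).symm _ _
    rw [hQ] at hx ⊢
    rcases hx with ⟨hx1, hx2⟩ | ⟨hx1, hx2⟩
    · by_cases hy1 : y ∈ Arc V a b
      · exact Or.inl ⟨hy1, hx2.trans _ _ _ (hstepS hx1 hy1)⟩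
      · have hyT : y ∈ Arc V b a := (mem_Arc_or hba hyV).resolve_left hy1
        rcases h N V a b x y ha hb hab hBd hx1 hy1 with e | e
        · have hxT : x ∈ Arc V b a := by rw [e]; exact haT
          have h3 := hstepT hxT hyT
          rw [e] at hx2 h3
          exact Or.inr ⟨hyT, Or.inl ⟨hx2, h3⟩⟩
        · have hxT : x ∈ Arc V b a := by rw [e]; exact hbT
          have h3 := hstepT hxT hyT
          rw [e] at hx2 h3
          exact Or.inr ⟨hyT, Or.inr ⟨hx2, h3⟩⟩
    · by_cases hy1 : y ∈ Arc V b a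
      · refine Or.inr ⟨hy1, ?_⟩
        rcases hx2 with ⟨h1, h2⟩ | ⟨h1, h2⟩
        · exact Or.inl ⟨h1, h2.trans _ _ _ (hstepT hx1 hy1)⟩
        · exact Or.inr ⟨h1, h2.trans _ _ _ (hstepT hx1 hy1)⟩
      · have hyS : y ∈ Arc V a b := (mem_Arc_or hba hyV).resolve_right hy1
        have e := h N V b a x y hb ha hba hBd hx1 hy1
        have hxS : x ∈ Arc V a b := by
          rcases e with e | e
          · rw [e]; exact hbS
          · rw [e]; exact haS
        exact Or.inl ⟨hyS, (hfin x e.symm hx2).trans _ _ _ (hstepS hxS hyS)⟩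
  have hall : ∀ x y, EqvGen F x y → (Q x ↔ Q y) := by
    intro x y hxy
    induction hxy with
    | rel x y hxy => exact ⟨key x y (Or.inl hxy), key y x (Or.inr hxy)⟩
    | refl x => exact Iff.rfl
    | symm x y _ ih => exact ih.symm
    | trans x y z _ _ ih1 ih2 => exact ih1.trans ih2
  have hQv : Q v := by rw [hQ]; exact Or.inl ⟨hv, EqvGen.refl v⟩
  have hQy := (hall v y hvy).1 hQv
  rw [hQ] at hQy
  rcases hQy with h1 | ⟨h1, h2⟩
  · exact h1.2
  · exact hfin y (mem_Arc_both hba hy h1) h2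

end Pool.Agent.Helper8.GPM
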